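import Pool.Agent.Helper10.P11.M_Pj
import Pool.Agent.Helper84.P11.D1

/-!
# Project P11: the projectors, without hypotheses
-/

set_option autoImplicit false

namespace Pool.Agent.Helper10.P11

theorem pj11 : S11Pj := hPj Pool.Agent.Helper84.P11.trm Pool.Agent.Helper84.P11.low0 Pool.Agent.Helper84.P11.nfa Pool.Agent.Helper84.P11.nf Pool.Agent.Helper84.P11.bb

end Pool.Agent.Helper10.P11
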