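import Pool.Agent.Helper10.P11.StPj

/-!
# Project P11, module Pj: the projectors to the torus classes
-/

set_option autoImplicit false

namespace Pool.Agent.Helper10.P11

open Pool.Agent.Helper84.P11

/-- The residue modulo 11 of the root of unity. -/
private def zz (w : Fin 10) : ZMod 11 := ((om10 w : ℤ) : ZMod 11)

private lemma zz_eq : ∀ w : Fin 10, zz w = ![1, 2, 4, 8, 5, 10, 9, 7, 3, 6] w := by
  intro w
  fin_cases w <;> (simp only [zz, om10]; decide)

private lemma zz10 (w : Fin 10) : zz w ^ 10 = 1 := by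
  rw [zz_eq]
  revert w
  decide

private lemma zz_sub (u w : Fin 10) : zz (u - w) ^ 9 = zz w * zz u ^ 9 := by
  rw [zz_eq, zz_eq, zz_eq]
  revert u w
  decide

/-- The sum of the powers. -/
private lemma zz_sum (e : ℕ) : -∑ w : Fin 10, zz w ^ e = if e % 10 = 0 then 1 else 0 := by
  have h : ∀ w : Fin 10, zz w ^ e = zz w ^ (e % 10) := by
    intro w
    conv_lhs => rw [← Nat.div_add_mod e 10]
    rw [pow_add, pow_mul, zz10, one_pow, one_mul]
  rw [Finset.sum_congr rfl fun w _ => h w]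
  have h6 : e % 10 < 10 := Nat.mod_lt _ (by norm_num)
  simp only [zz_eq]
  generalize e % 10 = k at h6
  interval_cases k <;> decide

section

variable {q q' : ℕ}

private lemma pj_eq (c : ℕ) : (pj c : Module.End (ZMod 11) (Fn11 q q')) =
    -∑ w : Fin 10, zz w ^ (9 * c) • oW w := by
  unfold pj
  congr 1
  refine Finset.sum_congr rfl fun w _ => ?_
  rw [zz]
  push_cast
  rfl

private lemma ngm (a b : Module.End (ZMod 11) (Fn11 q q')) : -a * b = -(a * b) := by
  refine LinearMap.ext fun F => ?_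
  rfl

private lemma mng (a b : Module.End (ZMod 11) (Fn11 q q')) : a * -b = -(a * b) := by
  refine LinearMap.ext fun F => ?_
  rw [Module.End.mul_apply, LinearMap.neg_apply, map_neg]
  rfl

private lemma nsm (a : ZMod 11) (b : Module.End (ZMod 11) (Fn11 q q')) : (-a) • b = -(a • b) :=
  neg_smul a b

/-- The operators which lower by at least `k`. -/
private def LW (r s : ℕ) (h : S11Low0) (k : ℤ) :
    Submodule (ZMod 11) (Module.End (ZMod 11) (Fn11 (11 ^ r) (11 ^ s))) where
  carrier := {O | Lw O k}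
  add_mem' := fun {a b} ha hb => (h r s).2.1 a b k ha hb
  zero_mem' := fun d F _ => by
    rw [LinearMap.zero_apply]
    exact Submodule.zero_mem _
  smul_mem' := fun c O hO => (h r s).2.2.1 O c k hO

end

private lemma mem_LW {r s : ℕ} {h : S11Low0} {k : ℤ}
    {O : Module.End (ZMod 11) (Fn11 (11 ^ r) (11 ^ s))} : O ∈ LW r s h k ↔ Lw O k := Iff.rfl

private lemma oW_mul (hm : S11Trm) (hf : S11Nf) (r s : ℕ) (w w' : Fin 10) :
    Lw (oW w * oW w' - oW (w + w') : Module.End (ZMod 11) (Fn11 (11 ^ r) (11 ^ s))) 13 := by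
  have hnd : ∀ w : Fin 10, ¬ (11 : ℤ) ∣ om10 w := by decide
  have hprod : ∀ w w' : Fin 10, ¬ (11 : ℤ) ∣ om10 w * om10 w' ∧
      (121 : ℤ) ∣ om10 w * om10 w' - (11 * (0 : ℕ) * (0 : ℕ) + 12 ^ 0) * om10 (w + w') * 1 := by decide
  have e : (oW w * oW w' : Module.End (ZMod 11) (Fn11 (11 ^ r) (11 ^ s))) =
      op11 1 0 0 (om10 w * om10 w') := by
    refine LinearMap.ext fun F => ?_
    have h := (hm (ZMod 11) r s F).1 1 0 0 (om10 w) 1 0 0 (om10 w') (by decide) (hnd w) (by decide)
      (hnd w')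
    have h1 : (1 : ℤ) * 1 + 11 * 0 * 0 = 1 := by norm_num
    have h2 : (1 : ℤ) * 0 + 0 * om10 w' = 0 := by ring
    have h3 : (0 : ℤ) * 1 + om10 w * 0 = 0 := by ring
    have h4 : 11 * (0 : ℤ) * 0 + om10 w * om10 w' = om10 w * om10 w' := by ring
    rw [h1, h2, h3, h4] at h
    exact h
  have k := hf r s 1 0 0 (om10 w * om10 w') (w + w') 0 0 0 (by decide) (hprod w w').1
    (by norm_num) (by norm_num) (hprod w w').2
  rw [pow_zero, pow_zero, pow_zero, mul_one, mul_one, mul_one] at k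
  rw [e]
  exact k

/-- Right shift of the sum. -/
private lemma shift_sum {r s : ℕ} (c : ℕ) (w : Fin 10) :
    (∑ w' : Fin 10, zz w' ^ (9 * c) • oW (w' + w) : Module.End (ZMod 11) (Fn11 (11 ^ r) (11 ^ s))) =
      zz w ^ c • ∑ w' : Fin 10, zz w' ^ (9 * c) • oW w' := by
  rw [← Equiv.sum_comp (Equiv.subRight w)
    (fun w' => (zz w' ^ (9 * c) • oW (w' + w) : Module.End (ZMod 11) (Fn11 (11 ^ r) (11 ^ s)))),
    Finset.smul_sum]
  refine Finset.sum_congr rfl fun u _ => ?_
  rw [Equiv.subRight_apply, sub_add_cancel, smul_smul]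
  congr 1
  rw [pow_mul, zz_sub, mul_pow, ← pow_mul]

private lemma pj_oW (hm : S11Trm) (hl : S11Low0) (hf : S11Nf) (r s c : ℕ) (w : Fin 10) :
    Lw (pj c * oW w - zz w ^ c • pj c : Module.End (ZMod 11) (Fn11 (11 ^ r) (11 ^ s))) 13 ∧
    Lw (oW w * pj c - zz w ^ c • pj c : Module.End (ZMod 11) (Fn11 (11 ^ r) (11 ^ s))) 13 := by
  have e0 : (zz w ^ c • pj c : Module.End (ZMod 11) (Fn11 (11 ^ r) (11 ^ s))) =
      -∑ w' : Fin 10, zz w' ^ (9 * c) • oW (w' + w) := by
    rw [shift_sum, pj_eq, smul_neg]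
  constructor
  · have e : (pj c * oW w - zz w ^ c • pj c : Module.End (ZMod 11) (Fn11 (11 ^ r) (11 ^ s))) =
        -∑ w' : Fin 10, zz w' ^ (9 * c) • (oW w' * oW w - oW (w' + w)) := by
      rw [e0, pj_eq, ngm, Finset.sum_mul]
      simp only [smul_sub, Finset.sum_sub_distrib, smul_mul_assoc]
      abel
    rw [e]
    exact (mem_LW (h := hl)).1 (Submodule.neg_mem _ (Submodule.sum_mem _ fun w' _ =>
      Submodule.smul_mem _ _ ((mem_LW (h := hl)).2 (oW_mul hm hf r s w' w))))
  · have e : (oW w * pj c - zz w ^ c • pj c : Module.End (ZMod 11) (Fn11 (11 ^ r) (11 ^ s))) =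
        -∑ w' : Fin 10, zz w' ^ (9 * c) • (oW w * oW w' - oW (w + w')) := by
      rw [e0, pj_eq, mng, Finset.mul_sum]
      simp only [smul_sub, Finset.sum_sub_distrib, mul_smul_comm, add_comm w]
      abel
    rw [e]
    exact (mem_LW (h := hl)).1 (Submodule.neg_mem _ (Submodule.sum_mem _ fun w' _ =>
      Submodule.smul_mem _ _ ((mem_LW (h := hl)).2 (oW_mul hm hf r s w w'))))

private lemma dX_bb (hb : S11Bb) (r s be : ℕ) (hbe : be < 11 ^ s) : ∀ al i : ℕ, al < 11 ^ r → al < i →
    ((dX : Module.End (ZMod 11) (Fn11 (11 ^ r) (11 ^ s))) ^ i) (bb11 al be) = 0 := by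
  intro al
  induction al with
  | zero =>
    intro i _ hi
    obtain ⟨k, rfl⟩ : ∃ k, i = k + 1 := ⟨i - 1, by omega⟩
    rw [pow_succ, Module.End.mul_apply, (hb r s).2.2.2.1 be hbe, map_zero]
  | succ al ih =>
    intro i h hi
    obtain ⟨k, rfl⟩ : ∃ k, i = k + 1 := ⟨i - 1, by omega⟩
    rw [pow_succ, Module.End.mul_apply, (hb r s).2.1 al be h hbe]
    exact ih k (by omega) (by omega)

private lemma dY_bb (hb : S11Bb) (r s al : ℕ) (hal : al < 11 ^ r) : ∀ be j : ℕ, be < 11 ^ s → be < j →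
    ((dY : Module.End (ZMod 11) (Fn11 (11 ^ r) (11 ^ s))) ^ j) (bb11 al be) = 0 := by
  intro be
  induction be with
  | zero =>
    intro i _ hi
    obtain ⟨k, rfl⟩ : ∃ k, i = k + 1 := ⟨i - 1, by omega⟩
    rw [pow_succ, Module.End.mul_apply, (hb r s).2.2.2.2.1 al hal, map_zero]
  | succ be ih =>
    intro i h hi
    obtain ⟨k, rfl⟩ : ∃ k, i = k + 1 := ⟨i - 1, by omega⟩
    rw [pow_succ, Module.End.mul_apply, (hb r s).2.2.1 al be hal h]
    exact ih k (by omega) (by omega)

private lemma dd_bb (hl : S11Low0) (hb : S11Bb) (r s al be i j : ℕ) (hal : al < 11 ^ r) (hbe : be < 11 ^ s)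
    (hij : i + j = al + be) (hne : ¬ (i = al ∧ j = be)) :
    ((dX ^ i * dY ^ j : Module.End (ZMod 11) (Fn11 (11 ^ r) (11 ^ s))) (bb11 al be)) = 0 := by
  have hc : Commute (dX : Module.End (ZMod 11) (Fn11 (11 ^ r) (11 ^ s))) dY := (hl r s).2.2.2.2.2.2.2.2.1
  by_cases h : al < i
  · rw [(hc.pow_pow i j).eq, Module.End.mul_apply, dX_bb hb r s be hbe al i hal h, map_zero]
  · rw [Module.End.mul_apply, dY_bb hb r s al hal be j hbe (by omega), map_zero]

private lemma coef (c al be : ℕ) : (((al : ℤ) - be - c) % 10 = 0) ↔ ((9 * c + (al + 9 * be)) % 10 = 0) := by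
  omega

/-- PJ. -/
theorem hPj (hm : S11Trm) (hl : S11Low0) (hn : S11Nfa) (hf : S11Nf) (hb : S11Bb) : S11Pj := by
  intro r s
  obtain ⟨n1, n2, n3, n4, n5, -⟩ := hn r s
  have p0 : ∀ c : ℕ, Lw (pj c : Module.End (ZMod 11) (Fn11 (11 ^ r) (11 ^ s))) 0 := by
    intro c
    rw [pj_eq]
    exact (mem_LW (h := hl)).1 (Submodule.neg_mem _ (Submodule.sum_mem _ fun w' _ =>
      Submodule.smul_mem _ _ ((mem_LW (h := hl)).2 (n1 w'))))
  refine ⟨p0, ?_, ?_, ?_, ?_, ?_, ?_, ?_⟩
  · -- the sum is one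
    have h0 : (oW 0 : Module.End (ZMod 11) (Fn11 (11 ^ r) (11 ^ s))) = 1 := by
      refine LinearMap.ext fun F => ?_
      exact (hm (ZMod 11) r s F).2.1
    simp only [pj_eq]
    rw [Finset.sum_neg_distrib, Finset.sum_comm]
    have h1 : ∀ w : Fin 10, (∑ c ∈ Finset.range 10, zz w ^ (9 * c)) = if w = 0 then 10 else 0 := by
      intro w
      simp only [zz_eq]
      revert w
      decide
    simp only [← Finset.sum_smul, h1, ite_smul, zero_smul]
    rw [Finset.sum_ite_eq' Finset.univ (0 : Fin 10), if_pos (Finset.mem_univ _), h0, ← neg_smul]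
    have : (-10 : ZMod 11) = 1 := by decide
    rw [this, one_smul]
  · intro c
    rw [pj_eq, pj_eq]
    refine congrArg Neg.neg (Finset.sum_congr rfl fun w _ => ?_)
    refine congrArg (fun t : ZMod 11 => (t • oW w : Module.End (ZMod 11) (Fn11 (11 ^ r) (11 ^ s)))) ?_
    rw [show 9 * (c + 10) = 9 * c + 10 * 9 by ring, pow_add, pow_mul (zz w) 10 9, zz10, one_pow, mul_one]
  · intro c w
    have h := pj_oW hm hl hf r s c w
    have e : (((om10 w) ^ c : ℤ) : ZMod 11) = zz w ^ c := by
      rw [zz]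
      push_cast
      rfl
    rw [e]
    exact h
  · -- products
    intro c c' hc hc'
    have e : (pj c * pj c' - (if c = c' then pj c else 0) : Module.End (ZMod 11) (Fn11 (11 ^ r) (11 ^ s))) =
        -∑ w : Fin 10, zz w ^ (9 * c) • (oW w * pj c' - zz w ^ c' • pj c') := by
      have h1 : (if c = c' then pj c else 0 : Module.End (ZMod 11) (Fn11 (11 ^ r) (11 ^ s))) =
          (-∑ w : Fin 10, zz w ^ (9 * c + c')) • pj c' := by
        rw [zz_sum]
        by_cases h : c = c'
        · subst h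
          rw [if_pos rfl, if_pos (by omega), one_smul]
        · rw [if_neg h, if_neg (by omega), zero_smul]
      rw [h1, nsm, pj_eq c, ngm, Finset.sum_mul]
      simp only [smul_sub, Finset.sum_sub_distrib, smul_mul_assoc, smul_smul, ← pow_add,
        ← Finset.sum_smul]
      abel
    rw [e]
    exact (mem_LW (h := hl)).1 (Submodule.neg_mem _ (Submodule.sum_mem _ fun w _ =>
      Submodule.smul_mem _ _ ((mem_LW (h := hl)).2 (pj_oW hm hl hf r s c' w).2)))
  · intro c
    constructor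
    · have e : (pj c * dX - dX * pj (c + 1) : Module.End (ZMod 11) (Fn11 (11 ^ r) (11 ^ s))) =
          ∑ w : Fin 10, zz w ^ (9 * (c + 1)) • (dX * oW w - zz w • (oW w * dX)) := by
        have h1 : ∀ w : Fin 10, zz w ^ (9 * (c + 1)) * zz w = zz w ^ (9 * c) := by
          intro w
          rw [← pow_succ, show 9 * (c + 1) + 1 = 9 * c + 10 by ring, pow_add, zz10, mul_one]
        rw [pj_eq c, pj_eq (c + 1), ngm, mng, Finset.sum_mul, Finset.mul_sum]
        simp only [smul_sub, Finset.sum_sub_distrib, smul_mul_assoc, mul_smul_comm, smul_smul, h1]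
        abel
      rw [e]
      exact (mem_LW (h := hl)).1 (Submodule.sum_mem _ fun w _ =>
        Submodule.smul_mem _ _ ((mem_LW (h := hl)).2 (n2 w)))
    · have e : (pj c * dY - dY * pj (c + 9) : Module.End (ZMod 11) (Fn11 (11 ^ r) (11 ^ s))) =
          ∑ w : Fin 10, zz w ^ (9 * (c + 9)) • (dY * oW w - zz w ^ 9 • (oW w * dY)) := by
        have h1 : ∀ w : Fin 10, zz w ^ (9 * (c + 9)) * zz w ^ 9 = zz w ^ (9 * c) := by
          intro w
          rw [← pow_add, show 9 * (c + 9) + 9 = 9 * c + 10 * 9 by ring, pow_add, pow_mul (zz w) 10 9,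
            zz10, one_pow, mul_one]
        rw [pj_eq c, pj_eq (c + 9), ngm, mng, Finset.sum_mul, Finset.mul_sum]
        simp only [smul_sub, Finset.sum_sub_distrib, smul_mul_assoc, mul_smul_comm, smul_smul, h1]
        abel
      rw [e]
      exact (mem_LW (h := hl)).1 (Submodule.sum_mem _ fun w _ =>
        Submodule.smul_mem _ _ ((mem_LW (h := hl)).2 (n3 w)))
  · intro F hF
    rw [pj_eq, LinearMap.neg_apply, LinearMap.sum_apply]
    have h1 : ∀ w : Fin 10, (zz w ^ (9 * 0) • oW w : Module.End (ZMod 11) (Fn11 (11 ^ r) (11 ^ s))) F =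
        zz w ^ 0 • F := by
      intro w
      rw [LinearMap.smul_apply, n4 w F hF]
    rw [Finset.sum_congr rfl fun w _ => h1 w, ← Finset.sum_smul, ← neg_smul, zz_sum, if_pos rfl,
      one_smul]
  · intro c al be hal hbe
    have hB := (hb r s).1 al be hal hbe
    have hP : pj c (bb11 al be : Fn11 (11 ^ r) (11 ^ s)) ∈ Wd11 ((al : ℤ) + be) := by
      have := p0 c _ _ hB
      rwa [sub_zero] at this
    have hG : pj c (bb11 al be : Fn11 (11 ^ r) (11 ^ s)) -
        (if ((al : ℤ) - be - c) % 10 = 0 then bb11 al be else 0) ∈ Wd11 ((al : ℤ) + be) := by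
      refine Submodule.sub_mem _ hP ?_
      split_ifs
      · exact hB
      · exact Submodule.zero_mem _
    intro i j hij
    by_cases h : i + j = al + be
    · have key : (dX ^ i * dY ^ j : Module.End (ZMod 11) (Fn11 (11 ^ r) (11 ^ s))) (pj c (bb11 al be)) =
          (if (9 * c + (i + 9 * j)) % 10 = 0 then (1 : ZMod 11) else 0) •
            (dX ^ i * dY ^ j : Module.End (ZMod 11) (Fn11 (11 ^ r) (11 ^ s))) (bb11 al be) := by
        rw [← zz_sum, pj_eq, LinearMap.neg_apply, LinearMap.sum_apply, map_neg, map_sum, neg_smul,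
          Finset.sum_smul]
        refine congrArg Neg.neg (Finset.sum_congr rfl fun w _ => ?_)
        have hB' : (bb11 al be : Fn11 (11 ^ r) (11 ^ s)) ∈ Wd11 ((i : ℤ) + j) := by
          have : (i : ℤ) + j = (al : ℤ) + be := by exact_mod_cast h
          rw [this]
          exact hB
        rw [LinearMap.smul_apply, map_smul, n5 w i j _ hB', smul_smul]
        refine congrArg (fun t : ZMod 11 => t •
          (dX ^ i * dY ^ j : Module.End (ZMod 11) (Fn11 (11 ^ r) (11 ^ s))) (bb11 al be)) ?_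
        rw [pow_add (zz w) (9 * c)]
        rfl
      rw [map_sub, key]
      by_cases h2 : i = al ∧ j = be
      · obtain ⟨rfl, rfl⟩ := h2
        by_cases h3 : ((i : ℤ) - j - c) % 10 = 0
        · rw [if_pos h3, if_pos ((coef c i j).1 h3), one_smul, sub_self]
        · rw [if_neg h3, if_neg (fun h4 => h3 ((coef c i j).2 h4)), zero_smul, map_zero, sub_self]
      · rw [dd_bb hl hb r s al be i j hal hbe h h2, smul_zero]
        split_ifs
        · rw [dd_bb hl hb r s al be i j hal hbe h h2, sub_self]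
        · rw [map_zero, sub_self]
    · exact hG i j (by omega)

end Pool.Agent.Helper10.P11
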