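import Pool.Agent.Helper84.P11.StD1

/-!
# Project P11 (levels `11^n`): class projectors

The analogue of `pj`, `S7Pj` of `Pool/Agent/Helper4/S7/StD2.lean`; classes modulo `10` (class of `x^i y^j`: `i - j`).
-/

set_option autoImplicit false

namespace Pool.Agent.Helper10.P11

open Pool.Agent.Helper84.P11

/-- The projector to the torus class `c`: `-∑_w om_w^(9c) oW w`. -/
def pj (c : ℕ) {q q' : ℕ} : Module.End (ZMod 11) (Fn11 q q') :=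
  -∑ w : Fin 10, (((om10 w) ^ (9 * c) : ℤ) : ZMod 11) • oW w

/-- PJ (from TRM, LOW0, NFA, NF, BB). Rules for the projectors; `S7Pj` with `11` in place of `7`. -/
def S11Pj : Prop := ∀ (r s : ℕ),
  (∀ c : ℕ, Lw (pj c : Module.End (ZMod 11) (Fn11 (11 ^ r) (11 ^ s))) 0) ∧
  (∑ c ∈ Finset.range 10, pj c : Module.End (ZMod 11) (Fn11 (11 ^ r) (11 ^ s))) = 1 ∧
  (∀ c : ℕ, (pj (c + 10) : Module.End (ZMod 11) (Fn11 (11 ^ r) (11 ^ s))) = pj c) ∧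
  (∀ (c : ℕ) (w : Fin 10),
    Lw (pj c * oW w - (((om10 w) ^ c : ℤ) : ZMod 11) • pj c : Module.End (ZMod 11) (Fn11 (11 ^ r) (11 ^ s))) 13 ∧
    Lw (oW w * pj c - (((om10 w) ^ c : ℤ) : ZMod 11) • pj c : Module.End (ZMod 11) (Fn11 (11 ^ r) (11 ^ s))) 13) ∧
  (∀ c c' : ℕ, c < 10 → c' < 10 → Lw (pj c * pj c' - (if c = c' then pj c else 0) :
    Module.End (ZMod 11) (Fn11 (11 ^ r) (11 ^ s))) 13) ∧
  (∀ c : ℕ, Lw (pj c * dX - dX * pj (c + 1) : Module.End (ZMod 11) (Fn11 (11 ^ r) (11 ^ s))) 2 ∧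
    Lw (pj c * dY - dY * pj (c + 9) : Module.End (ZMod 11) (Fn11 (11 ^ r) (11 ^ s))) 2) ∧
  (∀ F : Fn11 (11 ^ r) (11 ^ s), F ∈ Wd11 0 → pj 0 F = F) ∧
  (∀ c al be : ℕ, al < 11 ^ r → be < 11 ^ s →
    pj c (bb11 al be : Fn11 (11 ^ r) (11 ^ s)) - (if ((al : ℤ) - be - c) % 10 = 0 then bb11 al be else 0) ∈
      Wd11 ((al : ℤ) + be - 1))

end Pool.Agent.Helper10.P11
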